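import Pool.Agent.L0h31.GT.Stm

/-!
# Module ROW of project GT (helper31)
-/

set_option autoImplicit false

open MeasureTheory Filter Topology

namespace Pool.Agent.L0h53.GT

open Pool.Agent.L0h31.GT

theorem prod_fact (n : ℕ) : ∏ k : Fin n, 1 / (((k : ℕ) : ℝ) + 1) = 1 / (n.factorial : ℝ) := by
  induction n with
  | zero => simp
  | succ n ih =>
    rw [Fin.prod_univ_castSucc]
    simp only [Fin.val_castSucc, Fin.val_last]
    rw [ih, Nat.factorial_succ]
    push_cast
    have h1 : (n.factorial : ℝ) ≠ 0 := by exact_mod_cast n.factorial_ne_zero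
    have h2 : (n : ℝ) + 1 ≠ 0 := by positivity
    field_simp

theorem t_ROW (h1 : S_BIAL) (h2 : S_DINT) : S_ROW := by
  intro n l hl
  have hf : ((n + 1).factorial : ℝ) = (n + 1) * n.factorial := by
    rw [Nat.factorial_succ]; push_cast; ring
  have hf0 : (n.factorial : ℝ) ≠ 0 := by exact_mod_cast n.factorial_ne_zero
  have hn1 : (n : ℝ) + 1 ≠ 0 := by positivity
  have hn2 : (n : ℝ) + 2 ≠ 0 := by positivity
  have hn3 : (n : ℝ) + 3 ≠ 0 := by positivity
  refine ⟨?_, ?_, ?_, ?_⟩
  · have e1 : (fun μ : Fin (n + 1) → ℝ => vd μ) = fun μ => alt (fun k : Fin (n + 1) => (k : ℕ)) μ := by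
      funext μ; exact ((h1 (n + 1) μ).1).symm
    have e2 : (Fin.cons 0 fun k : Fin (n + 1) => (k : ℕ) + 1 : Fin (n + 2) → ℕ) = fun k : Fin (n + 2) => (k : ℕ) := by
      funext k
      refine Fin.cases ?_ (fun k => ?_) k
      · simp
      · simp
    rw [e1, h2 (n + 1) _ l hl, e2, (h1 (n + 2) l).1, prod_fact]
    ring
  · have e1 : (fun μ : Fin (n + 1) → ℝ => vd μ * p1 μ) = fun μ => alt (E1 (n + 1)) μ := by
      funext μ; exact ((h1 (n + 1) μ).2.1 (by omega)).symm
    have e2 : (Fin.cons 0 fun k : Fin (n + 1) => E1 (n + 1) k + 1 : Fin (n + 2) → ℕ) = E1 (n + 2) := by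
      funext k
      refine Fin.cases ?_ (fun k => ?_) k
      · simp [E1]
      · simp only [Fin.cons_succ, E1, Fin.val_succ]
        split_ifs <;> omega
    rw [e1, h2 (n + 1) _ l hl, e2, (h1 (n + 2) l).2.1 (by omega), Fin.prod_univ_castSucc]
    have e3 : ∀ k : Fin n, E1 (n + 1) k.castSucc = (k : ℕ) := by
      intro k
      have := k.2
      simp only [E1, Fin.val_castSucc]
      split_ifs <;> omega
    have e4 : E1 (n + 1) (Fin.last n) = n + 1 := by simp [E1]
    simp only [e3, e4]
    rw [prod_fact, hf]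
    push_cast
    field_simp
    ring
  · rcases Nat.eq_zero_or_pos n with hn | hn
    · subst hn
      have e1 : (fun μ : Fin (0 + 1) → ℝ => vd μ * ((p1 μ ^ 2 - p2 μ) / 2)) = fun μ => 0 := by
        funext μ
        simp [p1, p2]
      rw [e1]
      simp
    · obtain ⟨m, rfl⟩ : ∃ m, n = m + 1 := ⟨n - 1, by omega⟩
      have e1 : (fun μ : Fin (m + 1 + 1) → ℝ => vd μ * ((p1 μ ^ 2 - p2 μ) / 2)) =
          fun μ => alt (E2 (m + 1 + 1)) μ := by
        funext μ; exact ((h1 (m + 1 + 1) μ).2.2.1 (by omega)).symm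
      have e2 : (Fin.cons 0 fun k : Fin (m + 1 + 1) => E2 (m + 1 + 1) k + 1 : Fin (m + 1 + 2) → ℕ) =
          E2 (m + 1 + 2) := by
        funext k
        refine Fin.cases ?_ (fun k => ?_) k
        · simp [E2]
        · simp only [Fin.cons_succ, E2, Fin.val_succ]
          split_ifs <;> omega
      rw [e1, h2 (m + 1 + 1) _ l hl, e2, (h1 (m + 1 + 2) l).2.2.1 (by omega), Fin.prod_univ_castSucc,
        Fin.prod_univ_castSucc]
      have e3 : ∀ k : Fin m, E2 (m + 1 + 1) k.castSucc.castSucc = (k : ℕ) := by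
        intro k
        have := k.2
        simp only [E2, Fin.val_castSucc]
        split_ifs <;> omega
      have e4 : E2 (m + 1 + 1) (Fin.last m).castSucc = m + 1 := by
        simp only [E2, Fin.val_castSucc, Fin.val_last]
        split_ifs <;> omega
      have e5 : E2 (m + 1 + 1) (Fin.last (m + 1)) = m + 2 := by
        simp only [E2, Fin.val_last]
        split_ifs <;> omega
      simp only [e3, e4, e5]
      rw [prod_fact]
      have g1 : (m.factorial : ℝ) ≠ 0 := by exact_mod_cast m.factorial_ne_zero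
      have g2 : (((m + 1) + 1).factorial : ℝ) = (m + 2) * ((m + 1) * m.factorial) := by
        rw [Nat.factorial_succ, Nat.factorial_succ]; push_cast; ring
      rw [g2]
      push_cast
      have g3 : (m : ℝ) + 1 ≠ 0 := by positivity
      have g4 : (m : ℝ) + 2 ≠ 0 := by positivity
      have g5 : (m : ℝ) + 3 ≠ 0 := by positivity
      have g6 : (m : ℝ) + 1 + 1 = m + 2 := by ring
      have g7 : (m : ℝ) + 1 + 2 = m + 3 := by ring
      have g8 : (m : ℝ) + 2 + 1 = m + 3 := by ring
      rw [g6, g7, g8]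
      field_simp
  · have e1 : (fun μ : Fin (n + 1) → ℝ => vd μ * ((p1 μ ^ 2 + p2 μ) / 2)) = fun μ => alt (E3 (n + 1)) μ := by
      funext μ; exact ((h1 (n + 1) μ).2.2.2 (by omega)).symm
    have e2 : (Fin.cons 0 fun k : Fin (n + 1) => E3 (n + 1) k + 1 : Fin (n + 2) → ℕ) = E3 (n + 2) := by
      funext k
      refine Fin.cases ?_ (fun k => ?_) k
      · simp [E3]
      · simp only [Fin.cons_succ, E3, Fin.val_succ]
        split_ifs <;> omega
    rw [e1, h2 (n + 1) _ l hl, e2, (h1 (n + 2) l).2.2.2 (by omega), Fin.prod_univ_castSucc]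
    have e3 : ∀ k : Fin n, E3 (n + 1) k.castSucc = (k : ℕ) := by
      intro k
      have := k.2
      simp only [E3, Fin.val_castSucc]
      split_ifs <;> omega
    have e4 : E3 (n + 1) (Fin.last n) = n + 2 := by simp [E3]
    simp only [e3, e4]
    rw [prod_fact, hf]
    push_cast
    have g8 : (n : ℝ) + 2 + 1 = n + 3 := by ring
    rw [g8]
    field_simp

end Pool.Agent.L0h53.GT
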